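import Pool.Agent.H45.Lib.S8.W223.HZ.Stms

/-! Statements for: for all but `O(X ^ (1 - δ))` of the integers `d ≤ X` the form `x ^ 2 - d y ^ 2`
takes no small nonzero values for `1 ≤ y ≤ X ^ A`; `m = 2 (4 A + 1) ^ 2`. -/

namespace Pool.Agent.W223.PL

open Polynomial Pool.Agent.W223.HZ

noncomputable section

/-- DPG: determinant bound for a parametrised family, general error. -/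
def StmtDPG : Prop := ∀ C₄ : ℝ, 1 ≤ C₄ → ∃ C₅ : ℝ, 1 ≤ C₅ ∧ ∀ (m : ℕ) (S L e : ℝ), 1 ≤ m →
  0 < S → 0 < L → C₄ * L ≤ S → 0 < e → ∀ (τ : Fin m ⊕ Fin m → ℤ) (y : Fin m ⊕ Fin m → ℝ),
  Param C₄ S L e τ y → ∀ Y : ℝ,
  (∀ u : ℤ, |u| ≤ m → e ^ ((m : ℤ) - u) * L ^ (m * (m - 1)) * (L / S) ^ (u.natAbs ^ 2) ≤ Y) →
  |Matrix.det (Matrix.of fun i : Fin m ⊕ Fin m =>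
    Sum.elim (fun j : Fin m => (τ i : ℝ) ^ (j : ℕ)) (fun j : Fin m => y i * (τ i : ℝ) ^ (j : ℕ)))|
    ≤ C₅ ^ (m ^ 2) * Y

/-- PP1: the square root is parametrised. -/
def StmtPP1 : Prop := ∃ C₄ : ℝ, 1 ≤ C₄ ∧ ∀ (L e : ℝ) (ι : Type) (τ : ι → ℤ) (d₀ : ℤ) (y : ι → ℝ),
  1 ≤ d₀ → 0 ≤ L → C₄ * L ≤ d₀ → (∀ i, |(τ i : ℝ)| ≤ L) →
  (∀ i, |y i - √(((d₀ : ℝ) + τ i) / d₀)| ≤ e) → Param C₄ (d₀ : ℝ) L e τ y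

/-- PV: the determinants vanish. -/
def StmtPV : Prop := ∀ A : ℕ, 1 ≤ A → ∀ m : ℕ, m = 2 * (4 * A + 1) ^ 2 → ∃ D₀ : ℝ, 1 ≤ D₀ ∧
  ∀ (D V : ℝ) (d₀ : ℤ) (P Q d : Fin m ⊕ Fin m → ℤ), D₀ ≤ D → 1 ≤ V → V ≤ D ^ (2 * A) →
  D ≤ d₀ → (d₀ : ℝ) ≤ 2 * D → (∀ i, D ≤ d i ∧ (d i : ℝ) ≤ 2 * D) →
  (∀ i, |(d i : ℝ) - d₀| ≤ D ^ (1 / (8 * (m : ℝ)))) → (∀ i, V ≤ Q i ∧ (Q i : ℝ) < 2 * V) →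
  (∀ i, 0 ≤ P i) → (∀ i, |((P i ^ 2 - d i * Q i ^ 2 : ℤ) : ℝ)| ≤ D ^ ((1 : ℝ) / 8)) →
  (Mat m P Q (fun i => d i - d₀)).det = 0

/-- MIN: a small coprime relation for all but few of the points. -/
def StmtMIN : Prop := ∀ (m : ℕ), 1 ≤ m → ∀ (T : Finset ℤ) (x y : ℤ → ℤ) (H : ℝ), 1 ≤ H →
  (∀ τ ∈ T, ∀ j < m, |((x τ * τ ^ j : ℤ) : ℝ)| ≤ H ∧ |((y τ * τ ^ j : ℤ) : ℝ)| ≤ H) →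
  (∀ f : Fin m ⊕ Fin m → ℤ, (∀ i, f i ∈ T) →
    (Mat m (fun i => x (f i)) (fun i => y (f i)) f).det = 0) →
  ∃ T' ⊆ T, (T \ T').card ≤ m ^ 2 ∧ ∃ A B : ℤ[X], (A ≠ 0 ∨ B ≠ 0) ∧ A.natDegree < m ∧
    B.natDegree < m ∧ (∀ k, |(A.coeff k : ℝ)| ≤ (2 * m * H) ^ (2 * m)) ∧
    (∀ k, |(B.coeff k : ℝ)| ≤ (2 * m * H) ^ (2 * m)) ∧
    IsCoprime (A.map (Int.castRingHom ℚ)) (B.map (Int.castRingHom ℚ)) ∧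
    ∀ τ ∈ T', x τ * A.eval τ + y τ * B.eval τ = 0

/-- BEZ: a Bezout identity with a bounded right side. -/
def StmtBEZ : Prop := ∀ (n : ℕ) (A B : ℤ[X]) (H : ℝ), 1 ≤ H → A.natDegree ≤ n → B.natDegree ≤ n →
  (∀ k, |(A.coeff k : ℝ)| ≤ H) → (∀ k, |(B.coeff k : ℝ)| ≤ H) →
  IsCoprime (A.map (Int.castRingHom ℚ)) (B.map (Int.castRingHom ℚ)) →
  ∃ (U W : ℤ[X]) (R : ℤ), R ≠ 0 ∧ U * A + W * B = C R ∧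
    |(R : ℝ)| ≤ ((2 * n + 2) * H) ^ (2 * n + 2)

/-- DIV: the divisor bound. -/
def StmtDIV : Prop := ∀ ε : ℝ, 0 < ε → ∃ C : ℝ, 1 ≤ C ∧ ∀ n : ℕ, 1 ≤ n →
  (n.divisors.card : ℝ) ≤ C * (n : ℝ) ^ ε

/-- PAS: divisibility of the determinant by a power of a prime, squares. -/
def StmtPAS : Prop := ∀ (p : ℕ), p.Prime → 2 < p → ∀ (G : ℤ[X]) (m : ℕ), 1 ≤ m →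
  ∀ (τ g : Fin m ⊕ Fin m → ℤ), (∀ i, g i ^ 2 = G.eval (τ i)) → (∀ i, ¬ (p : ℤ) ∣ g i) →
  (∀ i j, (p : ℤ) ∣ τ i - τ j) → (∀ i j, (p : ℤ) ∣ g i - g j) →
  (p : ℤ) ^ (m * (2 * m - 1)) ∣ Matrix.det (Matrix.of fun i : Fin m ⊕ Fin m =>
    Sum.elim (fun j : Fin m => τ i ^ (j : ℕ)) (fun j : Fin m => g i * τ i ^ (j : ℕ)))

/-- `G` is not the square of a rational function. -/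
def NonSq (G : ℤ[X]) : Prop := ∀ P₁ P₂ : ℤ[X], (P₁ ≠ 0 ∨ P₂ ≠ 0) → P₁ ^ 2 - P₂ ^ 2 * G ≠ 0

/-- CLQ: the points in a residue class. -/
def StmtCLQ : Prop := ∀ (G : ℤ[X]) (k : ℕ), G.natDegree ≤ k → NonSq G → ∀ (p m' : ℕ), p.Prime →
  3 < p → 1 ≤ m' → ∀ (L Gm : ℝ), 1 ≤ L → 1 ≤ Gm →
  (2 * m') ^ 2 * Gm * L ^ (m' - 1) < (p : ℝ) ^ (2 * m' - 1) →
  ∀ (𝒯 : Finset ℤ) (g : ℤ → ℤ), (∀ τ ∈ 𝒯, g τ ^ 2 = G.eval τ) →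
  (∀ τ ∈ 𝒯, |(τ : ℝ)| ≤ L) → (∀ τ ∈ 𝒯, |(g τ : ℝ)| ≤ Gm) → (∀ τ ∈ 𝒯, ¬ (p : ℤ) ∣ g τ) →
  (∀ τ ∈ 𝒯, ∀ τ' ∈ 𝒯, (p : ℤ) ∣ τ - τ' ∧ (p : ℤ) ∣ g τ - g τ') →
  𝒯.card ≤ 2 * m' + k

/-- CUQ: square values of a polynomial. -/
def StmtCUQ : Prop := ∀ (G : ℤ[X]) (k : ℕ), G.natDegree ≤ k → NonSq G → ∀ (L Λ : ℝ), 1 ≤ L →
  1 ≤ Λ → (k : ℝ) ≤ Λ → ∀ 𝒯 : Finset ℤ, (∀ τ ∈ 𝒯, |(τ : ℝ)| ≤ L) →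
  (∀ τ ∈ 𝒯, ∃ g : ℤ, g ^ 2 = G.eval τ ∧ |(g : ℝ)| ≤ Real.exp Λ) →
  (𝒯.card : ℝ) ≤ 200000 * √L * Λ ^ 2 * Real.log (120 * √L * Λ)

/-- SQR: if `N (B ^ 2 - (d₀ + X) A ^ 2)` is the square of a rational function. -/
def StmtSQR : Prop := ∀ (m : ℕ) (A B : ℤ[X]) (N d₀ R : ℤ), A ≠ 0 → N ≠ 0 → R ≠ 0 →
  A.natDegree < m → B.natDegree < m → ¬ NonSq (C N * (B ^ 2 - (C d₀ + X) * A ^ 2)) →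
  ∀ (𝒯 : Finset ℤ) (g : ℤ → ℤ), (∀ τ ∈ 𝒯, g τ ∣ R) →
  (∀ τ ∈ 𝒯, (N * g τ) ^ 2 = (C N * (B ^ 2 - (C d₀ + X) * A ^ 2)).eval τ) →
  𝒯.card ≤ 4 * m * R.natAbs.divisors.card

/-- PI: an interval. -/
def StmtPI : Prop := ∀ A : ℕ, 1 ≤ A → ∀ m : ℕ, m = 2 * (4 * A + 1) ^ 2 → ∃ D₀ Cc : ℝ, 1 ≤ D₀ ∧
  1 ≤ Cc ∧ ∀ (D V : ℝ) (N : ℤ) (𝒟 : Finset ℤ), D₀ ≤ D → 1 ≤ V → V ≤ D ^ (2 * A) → N ≠ 0 →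
  |(N : ℝ)| ≤ D ^ ((1 : ℝ) / 8) → (∀ d ∈ 𝒟, D ≤ d ∧ (d : ℝ) ≤ 2 * D) →
  (∀ d ∈ 𝒟, ∀ d' ∈ 𝒟, |(d : ℝ) - d'| ≤ D ^ (1 / (8 * (m : ℝ)))) →
  (∀ d ∈ 𝒟, ∃ x y : ℤ, 0 ≤ x ∧ V ≤ y ∧ (y : ℝ) < 2 * V ∧ IsCoprime x y ∧
    x ^ 2 - d * y ^ 2 = N) →
  (𝒟.card : ℝ) ≤ Cc * D ^ (1 / (16 * (m : ℝ)) + 1 / (128 * m))

/-- PFIN: the result. -/
def StmtPFIN : Prop := ∀ A : ℕ, 1 ≤ A → ∃ M : ℝ, ∀ X : ℝ, 1 ≤ X →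
  ({d : ℤ | 1 ≤ d ∧ (d : ℝ) ≤ X ∧ ∃ x y : ℤ, 1 ≤ y ∧ (y : ℝ) ≤ X ^ A ∧ x ^ 2 ≠ d * y ^ 2 ∧
    |((x ^ 2 - d * y ^ 2 : ℤ) : ℝ)| ≤ X ^ (1 / (128 * (4 * (A : ℝ) + 1) ^ 2))}.ncard : ℝ) ≤
    M * X ^ (1 - 1 / (64 * (4 * (A : ℝ) + 1) ^ 2))

end

end Pool.Agent.W223.PL
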